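import Pool.Agent.H244R4.SH.Stmts

/-! # TaskLower (helper929). -/

set_option autoImplicit false

namespace H244SH

open Set

theorem exists_zero_929 (f : ℝ → ℝ) (hf : ContinuousOn f (Icc 0 1)) (h : f 1 = - f 0) :
    ∃ t ∈ Icc (0 : ℝ) 1, f t = 0 := by
  rcases le_total (f 0) 0 with h0 | h0
  · have := intermediate_value_Icc (zero_le_one' ℝ) hf
    obtain ⟨t, ht, h1⟩ := this ⟨h0, by linarith⟩
    exact ⟨t, ht, h1⟩
  · have := intermediate_value_Icc' (zero_le_one' ℝ) hf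
    obtain ⟨t, ht, h1⟩ := this ⟨by linarith, h0⟩
    exact ⟨t, ht, h1⟩

theorem taskLower : TaskLower := by
  rintro ⟨tri, symm, neg, curve, _⟩ hq p hp
  refine le_iInf₂ fun γ hγ => ?_
  obtain ⟨hcont, hS, h0, h1⟩ := hγ
  have hf : ContinuousOn (fun t => (γ t) 2) (Icc 0 1) := by
    have : Continuous fun x : E3 => x 2 := by fun_prop
    exact this.comp_continuousOn hcont
  obtain ⟨t, ht, hz⟩ := exists_zero_929 (fun t => (γ t) 2) hf (by simp [h0, h1])
  have hA : idist S p (γ t) ≤ eVariationOn γ (Icc 0 t) :=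
    curve S p (γ t) γ 0 t ht.1 (hcont.mono (Icc_subset_Icc le_rfl ht.2))
      (fun s hs => hS s ⟨hs.1, hs.2.trans ht.2⟩) h0 rfl
  have hB : idist S (γ t) (-p) ≤ eVariationOn γ (Icc t 1) :=
    curve S (γ t) (-p) γ t 1 ht.2 (hcont.mono (Icc_subset_Icc ht.1 le_rfl))
      (fun s hs => hS s ⟨ht.1.trans hs.1, hs.2⟩) rfl h1
  have hsum : eVariationOn γ (Icc 0 t) + eVariationOn γ (Icc t 1) = eVariationOn γ (Icc 0 1) := by
    have := eVariationOn.Icc_add_Icc γ (s := univ) ht.1 ht.2 (mem_univ t)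
    simpa using this
  calc ENNReal.ofReal (22 / 100) ≤ idist S (γ t) (-(γ t)) := hq (γ t) (hS t ht) hz
    _ ≤ idist S (γ t) (-p) + idist S (-p) (-(γ t)) := tri S _ _ _
    _ ≤ eVariationOn γ (Icc t 1) + eVariationOn γ (Icc 0 t) :=
      add_le_add hB ((neg S neg_mem_S p (γ t)).trans hA)
    _ = eVariationOn γ (Icc 0 1) := by rw [add_comm, hsum]

end H244SH
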