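import Pool.Agent.H244R4.SH.Stmts

set_option autoImplicit false

namespace H244SH

open Set

namespace PL

theorem var_split (γ : ℝ → E3) {a s t : ℝ} (h1 : a ≤ s) (h2 : s ≤ t) :
    eVariationOn γ (Icc a s) + eVariationOn γ (Icc s t) = eVariationOn γ (Icc a t) := by
  have h := eVariationOn.Icc_add_Icc γ (s := Set.univ) h1 h2 (Set.mem_univ s)
  simpa using h

theorem main (A : Set E3) (G : E3 → ℝ) (C : ℝ) (hC : 0 < C) (hG : PtLip A G C)
    (γ : ℝ → E3) (a b : ℝ) (hab : a ≤ b) (hγ : ContinuousOn γ (Icc a b))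
    (hA : ∀ t ∈ Icc a b, γ t ∈ A) (hV : eVariationOn γ (Icc a b) ≠ ⊤) :
    |G (γ b) - G (γ a)| ≤ C * (eVariationOn γ (Icc a b)).toReal := by
  set l : ℝ → ℝ := fun t => (eVariationOn γ (Icc a t)).toReal with hl
  have hfin : ∀ t, t ≤ b → eVariationOn γ (Icc a t) ≠ ⊤ := fun t ht =>
    ne_top_of_le_ne_top hV (eVariationOn.mono γ (Icc_subset_Icc_right ht))
  -- distance against the length
  have hdist : ∀ s t, a ≤ s → s ≤ t → t ≤ b → dist (γ s) (γ t) ≤ l t - l s := by
    intro s t h1 h2 h3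
    have h4 := var_split γ h1 h2
    have hfs : eVariationOn γ (Icc a s) ≠ ⊤ := hfin s (h2.trans h3)
    have hft : eVariationOn γ (Icc a t) ≠ ⊤ := hfin t h3
    have hfst : eVariationOn γ (Icc s t) ≠ ⊤ := by
      refine ne_top_of_le_ne_top hft ?_
      rw [← h4]
      exact le_add_self
    have h5 : l t - l s = (eVariationOn γ (Icc s t)).toReal := by
      simp only [hl]
      rw [← h4, ENNReal.toReal_add hfs hfst]
      ring
    rw [h5, dist_edist]
    exact ENNReal.toReal_mono hfst (eVariationOn.edist_le γ ⟨le_rfl, h2⟩ ⟨h2, le_rfl⟩)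
  have hloc : ∀ t ∈ Icc a b, ∃ η > 0, ∀ s ∈ Icc a b, |s - t| < η →
      |G (γ s) - G (γ t)| ≤ C * |l s - l t| := by
    intro t ht
    obtain ⟨δ, hδ, hδ2⟩ := hG (γ t) (hA t ht)
    obtain ⟨η, hη, hη2⟩ := Metric.continuousWithinAt_iff.1 (hγ t ht) δ hδ
    refine ⟨η, hη, fun s hs hst => ?_⟩
    have h1 : dist (γ s) (γ t) < δ := hη2 hs (by rw [Real.dist_eq]; exact hst)
    refine (hδ2 (γ s) (hA s hs) h1).trans ?_
    apply mul_le_mul_of_nonneg_left _ hC.le
    rcases le_total s t with h2 | h2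
    · have h3 := hdist s t hs.1 h2 ht.2
      rw [abs_sub_comm]
      exact h3.trans (le_abs_self _)
    · have h3 := hdist t s ht.1 h2 hs.2
      rw [dist_comm]
      exact h3.trans (le_abs_self _)
  have hmono : ∀ s t, a ≤ s → s ≤ t → t ≤ b → l s ≤ l t := by
    intro s t h1 h2 h3
    have := hdist s t h1 h2 h3
    have h4 : 0 ≤ dist (γ s) (γ t) := dist_nonneg
    linarith
  set T : Set ℝ := {t | t ∈ Icc a b ∧ |G (γ t) - G (γ a)| ≤ C * l t} with hT
  have haT : a ∈ T := by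
    refine ⟨⟨le_rfl, hab⟩, ?_⟩
    rw [sub_self, abs_zero]
    exact mul_nonneg hC.le ENNReal.toReal_nonneg
  have hTb : BddAbove T := ⟨b, fun t ht => ht.1.2⟩
  set σ : ℝ := sSup T with hσ
  have hσa : a ≤ σ := le_csSup hTb haT
  have hσb : σ ≤ b := csSup_le ⟨a, haT⟩ (fun t ht => ht.1.2)
  obtain ⟨η, hη, hη2⟩ := hloc σ ⟨hσa, hσb⟩
  have hσT : σ ∈ T := by
    obtain ⟨t, htT, ht⟩ := exists_lt_of_lt_csSup ⟨a, haT⟩ (show σ - η < sSup T by
      rw [← hσ]
      linarith)
    have htσ : t ≤ σ := le_csSup hTb htT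
    refine ⟨⟨hσa, hσb⟩, ?_⟩
    have h1 := hη2 t htT.1 (by rw [abs_sub_lt_iff]; constructor <;> linarith)
    have h2 := hmono t σ htT.1.1 htσ hσb
    rw [abs_sub_comm (l t) (l σ), abs_of_nonneg (by linarith : 0 ≤ l σ - l t),
      abs_sub_comm] at h1
    have h3 := abs_sub_le (G (γ σ)) (G (γ t)) (G (γ a))
    have h4 := htT.2
    have h5 : C * (l σ - l t) + C * l t = C * l σ := by ring
    linarith
  have hσeq : σ = b := by
    by_contra hne
    have hlt : σ < b := lt_of_le_of_ne hσb hne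
    obtain ⟨s, hs1, hs2⟩ := exists_between (lt_min (show σ < σ + η by linarith) hlt)
    rw [lt_min_iff] at hs2
    have hsI : s ∈ Icc a b := ⟨hσa.trans hs1.le, hs2.2.le⟩
    have h1 := hη2 s hsI (by rw [abs_sub_lt_iff]; constructor <;> linarith)
    have h2 := hmono σ s hσa hs1.le hs2.2.le
    rw [abs_of_nonneg (by linarith : 0 ≤ l s - l σ)] at h1
    have h3 := abs_sub_le (G (γ s)) (G (γ σ)) (G (γ a))
    have h4 := hσT.2
    have hsT : s ∈ T := by
      refine ⟨hsI, ?_⟩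
      have h5 : C * (l s - l σ) + C * l σ = C * l s := by ring
      linarith
    have := le_csSup hTb hsT
    rw [← hσ] at this
    linarith
  rw [hσeq] at hσT
  exact hσT.2

end PL

theorem taskPL : TaskPL := by
  intro A G C hC hG γ a b hab hγ hA
  by_cases hV : eVariationOn γ (Icc a b) = ⊤
  · rw [hV, ENNReal.mul_top (by simpa using hC)]
    exact le_top
  · have h := PL.main A G C hC hG γ a b hab hγ hA hV
    calc ENNReal.ofReal |G (γ b) - G (γ a)|
        ≤ ENNReal.ofReal (C * (eVariationOn γ (Icc a b)).toReal) := ENNReal.ofReal_le_ofReal h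
      _ = ENNReal.ofReal C * eVariationOn γ (Icc a b) := by
          rw [ENNReal.ofReal_mul hC.le, ENNReal.ofReal_toReal hV]

end H244SH
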