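import Pool.Agent.H244R4.SH.Stmts

/-! Task Conv of project H244-STEIN: the set `K` is a convex body with boundary `S`. -/

set_option autoImplicit false

namespace H244SH.ConvH133

open Set H244SH

lemma cosh_convex {a b : ℝ} (ha : 0 ≤ a) (hb : 0 ≤ b) (hab : a + b = 1) (x y : ℝ) :
    Real.cosh (a * x + b * y) ≤ a * Real.cosh x + b * Real.cosh y := by
  have h1 := convexOn_exp.2 (mem_univ x) (mem_univ y) ha hb hab
  have h2 := convexOn_exp.2 (mem_univ (-x)) (mem_univ (-y)) ha hb hab
  simp only [smul_eq_mul] at h1 h2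
  rw [show a * -x + b * -y = -(a * x + b * y) by ring] at h2
  rw [Real.cosh_eq, Real.cosh_eq, Real.cosh_eq]
  linarith

/-- the two defining functions -/
noncomputable def f1 (p : E3) : ℝ := (p 1) ^ 2 + 9 / 5 * Real.cosh (p 0) - 181 / 100

noncomputable def f2 (p : E3) : ℝ := |p 2| + Real.cosh (p 0) - 101 / 100

noncomputable def f (p : E3) : ℝ := max (f1 p) (f2 p)

lemma f1_conv {a b : ℝ} (ha : 0 ≤ a) (hb : 0 ≤ b) (hab : a + b = 1) (p q : E3) :
    f1 (a • p + b • q) ≤ a * f1 p + b * f1 q := by
  have h := cosh_convex ha hb hab (p 0) (q 0)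
  have h2 : (a * p 1 + b * q 1) ^ 2 ≤ a * (p 1) ^ 2 + b * (q 1) ^ 2 := by
    have hb' : b = 1 - a := by linarith
    subst hb'
    nlinarith [mul_nonneg (mul_nonneg ha hb) (sq_nonneg (p 1 - q 1))]
  unfold f1
  simp only [PiLp.add_apply, PiLp.smul_apply, smul_eq_mul]
  have hb' : b = 1 - a := by linarith
  subst hb'
  linarith

lemma f2_conv {a b : ℝ} (ha : 0 ≤ a) (hb : 0 ≤ b) (hab : a + b = 1) (p q : E3) :
    f2 (a • p + b • q) ≤ a * f2 p + b * f2 q := by
  have h := cosh_convex ha hb hab (p 0) (q 0)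
  have h2 : |a * p 2 + b * q 2| ≤ a * |p 2| + b * |q 2| := by
    refine (abs_add_le _ _).trans ?_
    rw [abs_mul, abs_mul, abs_of_nonneg ha, abs_of_nonneg hb]
  unfold f2
  simp only [PiLp.add_apply, PiLp.smul_apply, smul_eq_mul]
  have hb' : b = 1 - a := by linarith
  subst hb'
  linarith

lemma f_conv {a b : ℝ} (ha : 0 ≤ a) (hb : 0 ≤ b) (hab : a + b = 1) (p q : E3) :
    f (a • p + b • q) ≤ a * f p + b * f q := by
  refine max_le ?_ ?_
  · refine (f1_conv ha hb hab p q).trans ?_
    exact add_le_add (mul_le_mul_of_nonneg_left (le_max_left _ _) ha)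
      (mul_le_mul_of_nonneg_left (le_max_left _ _) hb)
  · refine (f2_conv ha hb hab p q).trans ?_
    exact add_le_add (mul_le_mul_of_nonneg_left (le_max_right _ _) ha)
      (mul_le_mul_of_nonneg_left (le_max_right _ _) hb)

lemma f_zero : f 0 = -(1 / 100) := by
  unfold f f1 f2
  simp
  norm_num

lemma f_cont : Continuous f := by
  have h0 : Continuous fun p : E3 => p 0 := (EuclideanSpace.proj (𝕜 := ℝ) (0 : Fin 3)).continuous
  have h1 : Continuous fun p : E3 => p 1 := (EuclideanSpace.proj (𝕜 := ℝ) (1 : Fin 3)).continuous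
  have h2 : Continuous fun p : E3 => p 2 := (EuclideanSpace.proj (𝕜 := ℝ) (2 : Fin 3)).continuous
  have hc := Real.continuous_cosh.comp h0
  refine Continuous.max ?_ ?_
  · exact ((h1.pow 2).add (hc.const_mul (9 / 5))).sub continuous_const
  · exact (h2.abs.add hc).sub continuous_const

lemma K_eq : K = {p | f p ≤ 0} := by
  ext p
  constructor
  · rintro ⟨h1, h2⟩
    show max (f1 p) (f2 p) ≤ 0
    refine max_le ?_ ?_
    · unfold f1; linarith
    · unfold f2; linarith
  · intro h
    have h' : max (f1 p) (f2 p) ≤ 0 := h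
    have h1 : f1 p ≤ 0 := (le_max_left _ _).trans h'
    have h2 : f2 p ≤ 0 := (le_max_right _ _).trans h'
    unfold f1 at h1
    unfold f2 at h2
    exact ⟨by linarith, by linarith⟩

lemma K_closed : IsClosed K := by
  rw [K_eq]
  exact isClosed_le f_cont continuous_const

lemma sq_le_sinh_sq (x : ℝ) : x ^ 2 ≤ Real.sinh x ^ 2 := by
  rcases le_total 0 x with h | h
  · have := Real.self_le_sinh_iff.mpr h
    nlinarith
  · have := Real.sinh_le_self_iff.mpr h
    nlinarith

lemma K_bdd : K ⊆ Metric.closedBall (0 : E3) 1 := by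
  rintro p ⟨h1, h2⟩
  have hc := Real.one_le_cosh (p 0)
  have hs := sq_le_sinh_sq (p 0)
  rw [Real.sinh_sq] at hs
  have hy : (p 1) ^ 2 ≤ 1 / 100 := by linarith
  have hcu : Real.cosh (p 0) ≤ 181 / 180 := by nlinarith [sq_nonneg (p 1)]
  have hx : (p 0) ^ 2 ≤ 1 / 50 := by nlinarith
  have hz : |p 2| ≤ 1 / 100 := by linarith
  have hz2 : (p 2) ^ 2 ≤ 1 / 100 := by
    have : (p 2) ^ 2 = |p 2| ^ 2 := (sq_abs _).symm
    rw [this]
    nlinarith [abs_nonneg (p 2)]
  rw [mem_closedBall_zero_iff, EuclideanSpace.norm_eq]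
  rw [Fin.sum_univ_three]
  simp only [Real.norm_eq_abs, sq_abs]
  rw [Real.sqrt_le_left (by norm_num)]
  linarith

lemma interior_K : interior K = {p | f p < 0} := by
  apply subset_antisymm
  · intro p hp
    have hpK : f p ≤ 0 := by
      have := interior_subset hp
      rwa [K_eq] at this
    -- move outward
    have hcont : ContinuousAt (fun t : ℝ => (1 + t) • p) 0 := by fun_prop
    have hnhds : K ∈ nhds ((fun t : ℝ => (1 + t) • p) 0) := by
      simpa using mem_interior_iff_mem_nhds.mp hp
    have hev := hcont.eventually hnhds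
    obtain ⟨δ, hδ, hball⟩ := Metric.eventually_nhds_iff.mp hev
    have hm : (1 + δ / 2) • p ∈ K := by
      apply hball
      rw [Real.dist_eq, sub_zero, abs_of_pos (by positivity)]
      linarith
    rw [K_eq] at hm
    have hfm : f ((1 + δ / 2) • p) ≤ 0 := hm
    set s : ℝ := 1 + δ / 2 with hs
    have hs1 : 1 < s := by rw [hs]; linarith
    have hs0 : 0 < s := by linarith
    have hinv : s⁻¹ < 1 := inv_lt_one_of_one_lt₀ hs1
    have key := f_conv (a := s⁻¹) (b := 1 - s⁻¹) (by positivity) (by linarith) (by ring)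
      (s • p) 0
    rw [smul_smul, inv_mul_cancel₀ hs0.ne', one_smul, smul_zero, add_zero, f_zero] at key
    have : s⁻¹ * f (s • p) ≤ 0 := mul_nonpos_of_nonneg_of_nonpos (by positivity) hfm
    show f p < 0
    nlinarith
  · refine interior_maximal ?_ (isOpen_lt f_cont continuous_const)
    intro p hp
    rw [K_eq]
    have hp' : f p < 0 := hp
    exact hp'.le

lemma S_eq : S = {p | f p = 0} := by
  ext p
  have hcosh : (p 1) ^ 2 + 9 / 5 * Real.cosh (p 0) ≤ 181 / 100 →
      0 < 101 / 100 - Real.cosh (p 0) := by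
    intro h
    nlinarith [sq_nonneg (p 1)]
  constructor
  · rintro ((⟨h1, h2⟩ | ⟨h1, h2⟩) | ⟨h1, h2⟩)
    · have hc := hcosh h1
      have ha : |p 2| = 101 / 100 - Real.cosh (p 0) := by rw [h2, abs_of_pos hc]
      have e2 : f2 p = 0 := by unfold f2; rw [ha]; ring
      have e1 : f1 p ≤ 0 := by unfold f1; linarith
      show max (f1 p) (f2 p) = 0
      rw [e2]; exact max_eq_right e1
    · have hc := hcosh h1
      have ha : |p 2| = 101 / 100 - Real.cosh (p 0) := by rw [h2, abs_neg, abs_of_pos hc]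
      have e2 : f2 p = 0 := by unfold f2; rw [ha]; ring
      have e1 : f1 p ≤ 0 := by unfold f1; linarith
      show max (f1 p) (f2 p) = 0
      rw [e2]; exact max_eq_right e1
    · have e1 : f1 p = 0 := by unfold f1; linarith
      have e2 : f2 p ≤ 0 := by unfold f2; linarith
      show max (f1 p) (f2 p) = 0
      rw [e1]; exact max_eq_left e2
  · intro h
    have h' : max (f1 p) (f2 p) = 0 := h
    rcases max_choice (f1 p) (f2 p) with hm | hm
    · have e1 : f1 p = 0 := by rw [← hm]; exact h'
      have e2 : f2 p ≤ 0 := by rw [← h']; exact le_max_right _ _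
      unfold f1 at e1
      unfold f2 at e2
      right
      exact ⟨by linarith, by linarith⟩
    · have e2 : f2 p = 0 := by rw [← hm]; exact h'
      have e1 : f1 p ≤ 0 := by rw [← h']; exact le_max_left _ _
      unfold f1 at e1
      unfold f2 at e2
      left
      rcases abs_choice (p 2) with ha | ha
      · left
        rw [ha] at e2
        exact ⟨by linarith, by linarith⟩
      · right
        rw [ha] at e2
        exact ⟨by linarith, by linarith⟩

theorem taskConv : TaskConv := by
  refine ⟨?_, ?_, ?_, ?_⟩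
  · exact (isCompact_closedBall (0 : E3) 1).of_isClosed_subset K_closed K_bdd
  · intro p hp q hq a b ha hb hab
    rw [K_eq] at hp hq ⊢
    have hp' : f p ≤ 0 := hp
    have hq' : f q ≤ 0 := hq
    show f (a • p + b • q) ≤ 0
    refine (f_conv ha hb hab p q).trans ?_
    have h1 := mul_nonpos_of_nonneg_of_nonpos ha hp'
    have h2 := mul_nonpos_of_nonneg_of_nonpos hb hq'
    linarith
  · refine ⟨0, ?_⟩
    rw [interior_K]
    show f 0 < 0
    rw [f_zero]
    norm_num
  · rw [K_closed.frontier_eq, interior_K, S_eq, K_eq]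
    ext p
    constructor
    · intro h
      have h' : f p = 0 := h
      exact ⟨h'.le, fun h2 => absurd h' (ne_of_lt h2)⟩
    · rintro ⟨h1, h2⟩
      exact le_antisymm h1 (not_lt.mp h2)

end H244SH.ConvH133
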