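import Pool.Agent.H244R4.SH.Stmts

/-! H244-STEIN, TaskQ: local comparison of `Q` with the euclidean distance (helper142). -/

set_option autoImplicit false

namespace H244SH

open Set

theorem sinh_near (ε : ℝ) (hε : 0 < ε) :
    ∃ δ > 0, ∀ x : ℝ, |x| < δ → |Real.sinh x| ≤ (1 + ε) * |x| := by
  have h := (Real.hasDerivAt_sinh 0).isLittleO
  have h2 := h.def hε
  rw [Metric.eventually_nhds_iff] at h2
  obtain ⟨δ, hδ, h3⟩ := h2
  refine ⟨δ, hδ, fun x hx => ?_⟩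
  have h4 := h3 (y := x) (by simpa [Real.dist_eq] using hx)
  simp only [Real.sinh_zero, sub_zero, Real.cosh_zero, smul_eq_mul, mul_one, Real.norm_eq_abs] at h4
  have h5 : |Real.sinh x| ≤ |Real.sinh x - x| + |x| := by
    have := abs_add_le (Real.sinh x - x) x
    simpa using this
  linarith

theorem taskQ : TaskQ := by
  intro ε hε
  obtain ⟨δ, hδ, h⟩ := sinh_near ε hε
  refine ⟨2 * δ, by positivity, fun p p' hpp => ?_⟩
  have hd : dist p' p ^ 2 = (p' 0 - p 0) ^ 2 + (p' 1 - p 1) ^ 2 + (p' 2 - p 2) ^ 2 := by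
    rw [EuclideanSpace.dist_eq, Real.sq_sqrt (by positivity), Fin.sum_univ_three]
    simp only [Real.dist_eq, sq_abs]
  have h0 : |p' 0 - p 0| ≤ dist p' p := by
    apply abs_le_of_sq_le_sq _ dist_nonneg
    rw [hd]
    nlinarith [sq_nonneg (p' 1 - p 1), sq_nonneg (p' 2 - p 2)]
  have h1 : |(p' 0 - p 0) / 2| < δ := by
    rw [abs_div, abs_of_pos (by norm_num : (0 : ℝ) < 2)]
    linarith
  have h2 := h _ h1
  have h3 : 4 * Real.sinh ((p' 0 - p 0) / 2) ^ 2 ≤ (1 + ε) ^ 2 * (p' 0 - p 0) ^ 2 := by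
    have h4 : Real.sinh ((p' 0 - p 0) / 2) ^ 2 ≤ ((1 + ε) * |(p' 0 - p 0) / 2|) ^ 2 := by
      rw [← sq_abs (Real.sinh _)]
      exact pow_le_pow_left₀ (abs_nonneg _) h2 2
    rw [mul_pow, sq_abs] at h4
    nlinarith [h4]
  have hQ : Q p' p ≤ ((1 + ε) * dist p' p) ^ 2 := by
    rw [mul_pow, hd]
    unfold Q
    have h5 : (1 : ℝ) ≤ (1 + ε) ^ 2 := by nlinarith
    nlinarith [sq_nonneg (p' 1 - p 1), sq_nonneg (p' 2 - p 2),
      mul_nonneg (sub_nonneg.2 h5) (sq_nonneg (p' 1 - p 1)),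
      mul_nonneg (sub_nonneg.2 h5) (sq_nonneg (p' 2 - p 2))]
  exact Real.sqrt_le_iff.2 ⟨by positivity, hQ⟩

end H244SH
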