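import Pool.Agent.H244R4.SH.Stmts

/-! Task Rim: structure of the plane region. -/

set_option autoImplicit false

namespace H244SH

open Set

theorem rim_norm_sq (w : ℂ) : ‖w‖ ^ 2 = w.re ^ 2 + w.im ^ 2 := by
  rw [Complex.sq_norm, Complex.normSq_apply]; ring

theorem rim_memTR (w : ℂ) : w ∈ TR ↔ w.im ^ 2 + 9 / 5 * ‖w‖ ≤ 19 / 100 := by
  have h1 := rim_norm_sq w
  have h0 : 0 ≤ 1 + w.re ^ 2 := by positivity
  have h2 := norm_nonneg w
  change ‖w‖ + 9 / 10 ≤ Real.sqrt (1 + w.re ^ 2) ↔ _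
  rw [Real.le_sqrt' (by positivity)]
  constructor <;> intro h <;> nlinarith

theorem rim_memTR' (w : ℂ) :
    w ∈ TR ↔ w.im ^ 2 + 9 / 5 * Real.sqrt (1 + w.re ^ 2) ≤ 181 / 100 := by
  have h1 := rim_norm_sq w
  have h0 : 0 ≤ 1 + w.re ^ 2 := by positivity
  have h2 := norm_nonneg w
  have h3 : 1 ≤ Real.sqrt (1 + w.re ^ 2) := by
    rw [Real.one_le_sqrt]; nlinarith [sq_nonneg w.re]
  have h4 := Real.sq_sqrt h0
  set C := Real.sqrt (1 + w.re ^ 2) with hC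
  have h5 : w ∈ TR ↔ ‖w‖ ≤ C - 9 / 10 := by
    change ‖w‖ + 9 / 10 ≤ C ↔ _
    constructor <;> intro h <;> linarith
  rw [h5, ← pow_le_pow_iff_left₀ h2 (by linarith) two_ne_zero, h1]
  constructor <;> intro h <;> nlinarith

theorem rim_cosh (x : ℝ) : Real.sqrt (1 + Real.sinh x ^ 2) = Real.cosh x := by
  rw [add_comm, ← Real.cosh_sq, Real.sqrt_sq (Real.cosh_pos x).le]

theorem rim_Psi_P (p : E3) (h : p 2 = 101 / 100 - Real.cosh (p 0)) : Psi (P p) = p := by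
  ext i
  fin_cases i
  · change Real.arsinh (Real.sinh (p 0)) = p 0
    exact Real.arsinh_sinh _
  · rfl
  · change 101 / 100 - Real.sqrt (1 + Real.sinh (p 0) ^ 2) = p 2
    rw [rim_cosh, h]

theorem rim_Psi'_P (p : E3) (h : p 2 = -(101 / 100 - Real.cosh (p 0))) : Psi' (P p) = p := by
  ext i
  fin_cases i
  · change Real.arsinh (Real.sinh (p 0)) = p 0
    exact Real.arsinh_sinh _
  · rfl
  · change -(101 / 100 - Real.sqrt (1 + Real.sinh (p 0) ^ 2)) = p 2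
    rw [rim_cosh, h]

theorem rim_P_mem (p : E3) (h : (p 1) ^ 2 + 9 / 5 * Real.cosh (p 0) ≤ 181 / 100) : P p ∈ TR := by
  rw [rim_memTR']
  change (p 1) ^ 2 + 9 / 5 * Real.sqrt (1 + Real.sinh (p 0) ^ 2) ≤ 181 / 100
  rw [rim_cosh]
  exact h

/-- Task Rim. -/
theorem taskRim : TaskRim := by
  refine ⟨?_, ?_, ?_, ?_, ?_, ?_⟩
  · rintro p ⟨h1, h2⟩
    exact ⟨rim_P_mem p h1, rim_Psi_P p h2⟩
  · rintro p ⟨h1, h2⟩
    exact ⟨rim_P_mem p h1, rim_Psi'_P p h2⟩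
  · intro w hw s hs
    obtain ⟨hs0, hs1⟩ := hs
    rw [rim_memTR] at hw ⊢
    have h1 : ((s : ℂ) * w).im = s * w.im := by simp
    have h2 : ‖(s : ℂ) * w‖ = s * ‖w‖ := by
      rw [norm_mul, Complex.norm_real, Real.norm_eq_abs, abs_of_nonneg hs0]
    rw [h1, h2]
    have h3 := norm_nonneg w
    have h4 : s * ‖w‖ ≤ ‖w‖ := mul_le_of_le_one_left h3 hs1
    have h5 : s ^ 2 ≤ 1 := pow_le_one₀ hs0 hs1
    have h6 : (s * w.im) ^ 2 ≤ w.im ^ 2 := by
      rw [mul_pow]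
      exact mul_le_of_le_one_left (sq_nonneg _) h5
    linarith
  · intro w hw
    rw [rim_memTR]
    have h1 := rim_norm_sq w
    have h2 := norm_nonneg w
    nlinarith [sq_nonneg w.re]
  · rintro p ⟨h1, h2⟩
    have hnn : 0 ≤ 101 / 100 - Real.cosh (p 0) := (abs_nonneg _).trans h2
    have hc1 := Real.one_le_cosh (p 0)
    have hnorm : ‖P p‖ = Real.cosh (p 0) - 9 / 10 := by
      have h3 := rim_norm_sq (P p)
      change ‖P p‖ ^ 2 = Real.sinh (p 0) ^ 2 + (p 1) ^ 2 at h3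
      have h4 := Real.cosh_sq (p 0)
      have h5 : ‖P p‖ ^ 2 = (Real.cosh (p 0) - 9 / 10) ^ 2 := by rw [h3]; nlinarith
      exact (pow_left_inj₀ (norm_nonneg _) (by linarith) two_ne_zero).1 h5
    have hP2 : (Psi (P p)) 2 = 101 / 100 - Real.cosh (p 0) := by
      change 101 / 100 - Real.sqrt (1 + Real.sinh (p 0) ^ 2) = _
      rw [rim_cosh]
    have hP2' : (Psi' (P p)) 2 = -(101 / 100 - Real.cosh (p 0)) := by
      change -(101 / 100 - Real.sqrt (1 + Real.sinh (p 0) ^ 2)) = _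
      rw [rim_cosh]
    have hP0 : (Psi (P p)) 0 = p 0 := Real.arsinh_sinh _
    have hP0' : (Psi' (P p)) 0 = p 0 := Real.arsinh_sinh _
    have hP1 : (Psi (P p)) 1 = p 1 := rfl
    have hP1' : (Psi' (P p)) 1 = p 1 := rfl
    refine ⟨rim_P_mem p h1.le, ⟨?_, ?_⟩, ⟨?_, ?_⟩, hP0, hP1, hP0', hP1', ?_, ?_, ?_⟩
    · rw [hP0, hP1]; exact h1
    · rw [hP2, hP0, abs_of_nonneg hnn]
    · rw [hP0', hP1']; exact h1
    · rw [hP2', hP0', abs_neg, abs_of_nonneg hnn]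
    · rw [hP2, hnorm]; ring
    · rw [hP2', hnorm]; ring
    · rw [hnorm]; linarith
  · intro w hw hw0
    rw [rim_memTR] at hw
    have hn : 0 < ‖w‖ := norm_pos_iff.2 hw0
    let φ : ℝ → ℝ := fun c => c ^ 2 * w.im ^ 2 + 9 / 5 * (c * ‖w‖)
    have hφ : Continuous φ := by fun_prop
    let c1 : ℝ := max 1 (19 / 100 / (9 / 5 * ‖w‖))
    have hc1 : 1 ≤ c1 := le_max_left _ _
    have hφ1 : φ 1 ≤ 19 / 100 := by
      change 1 ^ 2 * w.im ^ 2 + 9 / 5 * (1 * ‖w‖) ≤ 19 / 100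
      linarith
    have hφc1 : 19 / 100 ≤ φ c1 := by
      have h1 : 19 / 100 / (9 / 5 * ‖w‖) ≤ c1 := le_max_right _ _
      rw [div_le_iff₀ (by positivity)] at h1
      change 19 / 100 ≤ c1 ^ 2 * w.im ^ 2 + 9 / 5 * (c1 * ‖w‖)
      have h2 : 0 ≤ c1 ^ 2 * w.im ^ 2 := by positivity
      linarith
    obtain ⟨c, ⟨hc, -⟩, hcφ⟩ := intermediate_value_Icc hc1 hφ.continuousOn ⟨hφ1, hφc1⟩
    have hc0 : 0 ≤ c := zero_le_one.trans hc
    have hcφ' : c ^ 2 * w.im ^ 2 + 9 / 5 * (c * ‖w‖) = 19 / 100 := hcφ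
    have him : ((c : ℂ) * w).im = c * w.im := by simp
    have hre : ((c : ℂ) * w).re = c * w.re := by simp
    have hnm : ‖(c : ℂ) * w‖ = c * ‖w‖ := by
      rw [norm_mul, Complex.norm_real, Real.norm_eq_abs, abs_of_nonneg hc0]
    have hmem : (c : ℂ) * w ∈ TR := by
      rw [rim_memTR, him, hnm, mul_pow]
      exact hcφ'.le
    have hsq : Real.sqrt (1 + (c * w.re) ^ 2) = c * ‖w‖ + 9 / 10 := by
      have h1 := rim_norm_sq w
      have h2 : 1 + (c * w.re) ^ 2 = (c * ‖w‖ + 9 / 10) ^ 2 := by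
        have h3 : (c * ‖w‖) ^ 2 = c ^ 2 * (w.re ^ 2 + w.im ^ 2) := by rw [mul_pow, h1]
        nlinarith
      rw [h2, Real.sqrt_sq (by positivity)]
    have hle : Real.sqrt (1 + (c * w.re) ^ 2) ≤ 181 / 180 := by
      rw [hsq]
      have : 0 ≤ c ^ 2 * w.im ^ 2 := by positivity
      linarith
    have hA : (Psi ((c : ℂ) * w)) 0 = Real.arsinh (c * w.re) := by
      change Real.arsinh ((c : ℂ) * w).re = _
      rw [hre]
    have hA' : (Psi' ((c : ℂ) * w)) 0 = Real.arsinh (c * w.re) := by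
      change Real.arsinh ((c : ℂ) * w).re = _
      rw [hre]
    have hB : (Psi ((c : ℂ) * w)) 1 = c * w.im := him
    have hB' : (Psi' ((c : ℂ) * w)) 1 = c * w.im := him
    have hC : (Psi ((c : ℂ) * w)) 2 = 101 / 100 - Real.sqrt (1 + (c * w.re) ^ 2) := by
      change 101 / 100 - Real.sqrt (1 + ((c : ℂ) * w).re ^ 2) = _
      rw [hre]
    have hC' : (Psi' ((c : ℂ) * w)) 2 = -(101 / 100 - Real.sqrt (1 + (c * w.re) ^ 2)) := by
      change -(101 / 100 - Real.sqrt (1 + ((c : ℂ) * w).re ^ 2)) = _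
      rw [hre]
    refine ⟨c, hc, hmem, ⟨?_, ?_⟩, ⟨?_, ?_⟩⟩
    · rw [hA, hB, Real.cosh_arsinh, hsq, mul_pow]; linarith
    · rw [hA, hC, Real.cosh_arsinh, abs_of_nonneg (by linarith)]
    · rw [hA', hB', Real.cosh_arsinh, hsq, mul_pow]; linarith
    · rw [hA', hC', Real.cosh_arsinh, abs_neg, abs_of_nonneg (by linarith)]

end H244SH
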