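import Mathlib

/-! Project H244-STEIN: a Steinhaus convex surface that is not a surface of revolution
(MP_324c12_gt). Definitions, task statements and the assembly. -/

set_option autoImplicit false

namespace H244SH

open Set

abbrev E3 := EuclideanSpace ℝ (Fin 3)

/-- `γ` restricted to `[0,1]` is a curve in `S` from `p` to `q` -/
def IsCurve (S : Set E3) (p q : E3) (γ : ℝ → E3) : Prop :=
  ContinuousOn γ (Icc 0 1) ∧ (∀ t ∈ Icc (0 : ℝ) 1, γ t ∈ S) ∧ γ 0 = p ∧ γ 1 = q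

/-- intrinsic distance: infimum of the lengths of the curves in `S` from `p` to `q` -/
noncomputable def idist (S : Set E3) (p q : E3) : ENNReal :=
  ⨅ (γ : ℝ → E3) (_ : IsCurve S p q γ), eVariationOn γ (Icc 0 1)

/-- the points of `S` at maximal intrinsic distance from `p` -/
def antipodes (S : Set E3) (p : E3) : Set E3 := {q | q ∈ S ∧ ∀ s ∈ S, idist S p s ≤ idist S p q}

def IsSteinhaus (S : Set E3) : Prop :=
  ∃ F : E3 → E3, (∀ p ∈ S, antipodes S p = {F p}) ∧ ∀ p ∈ S, F (F p) = p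

def IsConvexSurface (S : Set E3) : Prop :=
  ∃ K : Set E3, IsCompact K ∧ Convex ℝ K ∧ (interior K).Nonempty ∧ S = frontier K

/-- invariance under all rotations about the line through `o` with direction `v`: with a point `x`
the set contains the whole circle of points with the same projection to the line and the same
distance from `o` -/
def IsRevolution (S : Set E3) : Prop :=
  ∃ o v : E3, v ≠ 0 ∧ ∀ x ∈ S, ∀ y : E3, inner ℝ (y - o) v = inner ℝ (x - o) v →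
    ‖y - o‖ = ‖x - o‖ → y ∈ S

/-- the convex body (kappa = 9/10, H = 101/100) -/
def K : Set E3 := {p | (p 1) ^ 2 + 9 / 5 * Real.cosh (p 0) ≤ 181 / 100 ∧
  |p 2| ≤ 101 / 100 - Real.cosh (p 0)}

/-- top, bottom and wall -/
def T : Set E3 := {p | (p 1) ^ 2 + 9 / 5 * Real.cosh (p 0) ≤ 181 / 100 ∧
  p 2 = 101 / 100 - Real.cosh (p 0)}
def B : Set E3 := {p | (p 1) ^ 2 + 9 / 5 * Real.cosh (p 0) ≤ 181 / 100 ∧
  p 2 = -(101 / 100 - Real.cosh (p 0))}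
def W : Set E3 := {p | (p 1) ^ 2 + 9 / 5 * Real.cosh (p 0) = 181 / 100 ∧
  |p 2| ≤ 101 / 100 - Real.cosh (p 0)}
def S : Set E3 := T ∪ B ∪ W

/-- plane coordinates (development of the top) -/
noncomputable def P (p : E3) : ℂ := ⟨Real.sinh (p 0), p 1⟩

open Classical in
/-- distance from the pole on the upper half, folded -/
noncomputable def rt (p : E3) : ℝ :=
  if (p 1) ^ 2 + 9 / 5 * Real.cosh (p 0) = 181 / 100 then 11 / 100 - |p 2| else ‖P p‖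

open Classical in
noncomputable def V (p : E3) : ℂ :=
  if ‖P p‖ ≤ 1 / 10 then P p else ((1 / 10 / ‖P p‖ : ℝ) : ℂ) * P p

noncomputable def tt (p : E3) : ℝ := max (rt p - 1 / 10) 0

/-- the quadratic expression that dominates everything -/
noncomputable def Q (p p' : E3) : ℝ :=
  4 * Real.sinh ((p 0 - p' 0) / 2) ^ 2 + (p 1 - p' 1) ^ 2 + (p 2 - p' 2) ^ 2

noncomputable def g1 (u : ℂ) (p : E3) : ℝ := 11 / 100 - ((starRingEnd ℂ) u * V p).re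
noncomputable def g2 (u : ℂ) (p : E3) : ℝ :=
  Real.sqrt (‖V p - ((1 / 10 : ℝ) : ℂ) * u‖ ^ 2 + (1 / 100 - tt p) ^ 2)
open Classical in
noncomputable def G (u : ℂ) (p : E3) : ℝ :=
  if ‖V p‖ < 1 / 10 then g1 u p else min (g1 u p) (g2 u p)

/-- the front part of the surface -/
def Sf (u : ℂ) : Set E3 := {p | p ∈ S ∧ 0 ≤ ((starRingEnd ℂ) u * P p).re}

/-- local Lipschitz condition at each point -/
def PtLip (A : Set E3) (G : E3 → ℝ) (C : ℝ) : Prop :=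
  ∀ p ∈ A, ∃ δ > 0, ∀ p' ∈ A, dist p' p < δ → |G p' - G p| ≤ C * dist p' p

/-! ### tasks -/

/-- length against a pointwise Lipschitz function -/
def TaskPL : Prop := ∀ (A : Set E3) (G : E3 → ℝ) (C : ℝ), 0 < C → PtLip A G C →
  ∀ (γ : ℝ → E3) (a b : ℝ), a ≤ b → ContinuousOn γ (Icc a b) → (∀ t ∈ Icc a b, γ t ∈ A) →
  ENNReal.ofReal |G (γ b) - G (γ a)| ≤ ENNReal.ofReal C * eVariationOn γ (Icc a b)

/-- the map to the round cylinder does not increase distances on each piece -/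
def TaskKE : Prop := ∀ p p' : E3, ((p ∈ T ∧ p' ∈ T) ∨ (p ∈ B ∧ p' ∈ B) ∨ (p ∈ W ∧ p' ∈ W)) →
  ‖V p - V p'‖ ^ 2 + (tt p - tt p') ^ 2 ≤ Q p p'

/-- local comparison of Q with the euclidean distance -/
def TaskQ : Prop := ∀ ε : ℝ, 0 < ε → ∃ δ > 0, ∀ p p' : E3, dist p' p < δ →
  Real.sqrt (Q p' p) ≤ (1 + ε) * dist p' p

def TaskG : Prop := TaskKE → TaskQ → ∀ (u : ℂ), ‖u‖ = 1 → ∀ ε : ℝ, 0 < ε →
  PtLip (Sf u) (G u) (1 + ε)

/-- from the equator to the middle, staying in front, costs at least 11/100 -/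
def TaskFront : Prop := TaskPL → (∀ (u : ℂ), ‖u‖ = 1 → ∀ ε : ℝ, 0 < ε → PtLip (Sf u) (G u) (1 + ε)) →
  ∀ q ∈ S, q 2 = 0 → ∀ (γ : ℝ → E3) (a b : ℝ), a ≤ b → ContinuousOn γ (Icc a b) →
  (∀ t ∈ Icc a b, γ t ∈ S ∧ 0 ≤ ((starRingEnd ℂ) (P q) * P (γ t)).re) → γ a = q →
  ((starRingEnd ℂ) (P q) * P (γ b)).re = 0 →
  ENNReal.ofReal (11 / 100) ≤ eVariationOn γ (Icc a b)

/-- from an equator point to the opposite point -/
def TaskMid : Prop :=
  (∀ q ∈ S, q 2 = 0 → ∀ (γ : ℝ → E3) (a b : ℝ), a ≤ b → ContinuousOn γ (Icc a b) →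
    (∀ t ∈ Icc a b, γ t ∈ S ∧ 0 ≤ ((starRingEnd ℂ) (P q) * P (γ t)).re) → γ a = q →
    ((starRingEnd ℂ) (P q) * P (γ b)).re = 0 →
    ENNReal.ofReal (11 / 100) ≤ eVariationOn γ (Icc a b)) →
  ∀ q ∈ S, q 2 = 0 → ENNReal.ofReal (22 / 100) ≤ idist S q (-q)

/-- basic properties of idist -/
def TaskTri : Prop := (∀ (A : Set E3) (p q r : E3), idist A p r ≤ idist A p q + idist A q r) ∧
  (∀ (A : Set E3) (p q : E3), idist A p q ≤ idist A q p) ∧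
  (∀ (A : Set E3), (∀ x ∈ A, -x ∈ A) → ∀ p q, idist A (-p) (-q) ≤ idist A p q) ∧
  (∀ (A : Set E3) (p q : E3) (γ : ℝ → E3) (a b : ℝ), a ≤ b → ContinuousOn γ (Icc a b) →
    (∀ t ∈ Icc a b, γ t ∈ A) → γ a = p → γ b = q → idist A p q ≤ eVariationOn γ (Icc a b)) ∧
  (∀ (A : Set E3) (p q : E3) (γ : ℝ → E3) (L : ℝ), 0 ≤ L →
    (∀ s ∈ Icc (0 : ℝ) L, ∀ t ∈ Icc (0 : ℝ) L, dist (γ s) (γ t) ≤ |s - t|) →
    (∀ t ∈ Icc (0 : ℝ) L, γ t ∈ A) → γ 0 = p → γ L = q → idist A p q ≤ ENNReal.ofReal L)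

/-- lower bound for all points -/
def TaskLower : Prop := TaskTri → (∀ q ∈ S, q 2 = 0 → ENNReal.ofReal (22 / 100) ≤ idist S q (-q)) →
  ∀ p ∈ S, ENNReal.ofReal (22 / 100) ≤ idist S p (-p)

/-- the isometric maps of the plane region onto top and bottom -/
noncomputable def Psi (w : ℂ) : E3 :=
  !₂[Real.arsinh w.re, w.im, 101 / 100 - Real.sqrt (1 + w.re ^ 2)]
noncomputable def Psi' (w : ℂ) : E3 :=
  !₂[Real.arsinh w.re, w.im, -(101 / 100 - Real.sqrt (1 + w.re ^ 2))]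
def TR : Set ℂ := {w | ‖w‖ + 9 / 10 ≤ Real.sqrt (1 + w.re ^ 2)}

/-- straight segments in the plane region -/
def TaskSeg : Prop := TaskTri → (∀ w w' : ℂ, segment ℝ w w' ⊆ TR →
  idist S (Psi w) (Psi w') ≤ ENNReal.ofReal ‖w - w'‖ ∧
  idist S (Psi' w) (Psi' w') ≤ ENNReal.ofReal ‖w - w'‖)

/-- vertical segments in the wall -/
def TaskVert : Prop := TaskTri → ∀ p ∈ W, ∀ p' ∈ W, p 0 = p' 0 → p 1 = p' 1 →
  idist S p p' ≤ ENNReal.ofReal |p 2 - p' 2|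

/-- structure of the plane region; T, B are the images of TR, the rim in each direction -/
def TaskRim : Prop :=
  (∀ p ∈ T, P p ∈ TR ∧ Psi (P p) = p) ∧ (∀ p ∈ B, P p ∈ TR ∧ Psi' (P p) = p) ∧
  (∀ w ∈ TR, ∀ s ∈ Icc (0 : ℝ) 1, (s : ℂ) * w ∈ TR) ∧
  (∀ w : ℂ, ‖w‖ ≤ 1 / 10 → w ∈ TR) ∧
  (∀ p ∈ W, P p ∈ TR ∧ Psi (P p) ∈ W ∧ Psi' (P p) ∈ W ∧ (Psi (P p)) 0 = p 0 ∧
    (Psi (P p)) 1 = p 1 ∧ (Psi' (P p)) 0 = p 0 ∧ (Psi' (P p)) 1 = p 1 ∧
    (Psi (P p)) 2 = 11 / 100 - ‖P p‖ ∧ (Psi' (P p)) 2 = -(11 / 100 - ‖P p‖) ∧ |p 2| ≤ 11 / 100 - ‖P p‖) ∧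
  (∀ w ∈ TR, w ≠ 0 → ∃ c : ℝ, 1 ≤ c ∧ (c : ℂ) * w ∈ TR ∧ Psi ((c : ℂ) * w) ∈ W ∧
    Psi' ((c : ℂ) * w) ∈ W)

/-- upper bound, strict for all points except the opposite one -/
def TaskUp : Prop := TaskTri →
  (∀ w w' : ℂ, segment ℝ w w' ⊆ TR →
    idist S (Psi w) (Psi w') ≤ ENNReal.ofReal ‖w - w'‖ ∧
    idist S (Psi' w) (Psi' w') ≤ ENNReal.ofReal ‖w - w'‖) →
  (∀ p ∈ W, ∀ p' ∈ W, p 0 = p' 0 → p 1 = p' 1 → idist S p p' ≤ ENNReal.ofReal |p 2 - p' 2|) →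
  TaskRim → ∀ p ∈ S, ∀ q ∈ S, q ≠ -p → idist S p q < ENNReal.ofReal (22 / 100)

def TaskConv : Prop := IsCompact K ∧ Convex ℝ K ∧ (interior K).Nonempty ∧ S = frontier K

def TaskRev : Prop := ¬ IsRevolution S

/-! ### assembly -/

lemma neg_mem_S (p : E3) (hp : p ∈ S) : -p ∈ S := by
  rcases hp with (⟨h1, h2⟩ | ⟨h1, h2⟩) | ⟨h1, h2⟩
  · left; right
    refine ⟨by simpa using h1, ?_⟩
    simp [h2]
  · left; left
    refine ⟨by simpa using h1, ?_⟩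
    simp [h2]
  · right
    exact ⟨by simpa using h1, by simpa using h2⟩

theorem assemble (hPL : TaskPL) (hKE : TaskKE) (hQ : TaskQ) (hG : TaskG) (hF : TaskFront)
    (hM : TaskMid) (hTri : TaskTri) (hL : TaskLower) (hSeg : TaskSeg) (hV : TaskVert)
    (hRim : TaskRim) (hUp : TaskUp) (hC : TaskConv) (hR : TaskRev) :
    ∃ S : Set E3, IsConvexSurface S ∧ IsSteinhaus S ∧ ¬ IsRevolution S := by
  have hlow := hL hTri (hM (hF hPL (hG hKE hQ)))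
  have hup := hUp hTri (hSeg hTri) (hV hTri) hRim
  refine ⟨S, ⟨K, hC⟩, ⟨fun p => -p, ?_, fun p _ => neg_neg p⟩, hR⟩
  intro p hp
  ext q
  constructor
  · rintro ⟨hq, hmax⟩
    by_contra hne
    have h1 := hup p hp q hq hne
    have h2 := hmax (-p) (neg_mem_S p hp)
    exact absurd (lt_of_le_of_lt ((hlow p hp).trans h2) h1) (lt_irrefl _)
  · intro hq
    rw [mem_singleton_iff] at hq
    subst hq
    refine ⟨neg_mem_S p hp, fun s hs => ?_⟩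
    by_cases hsp : s = -p
    · rw [hsp]
    · exact (hup p hp s hs hsp).le.trans (hlow p hp)

end H244SH
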