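import Mathlib
import Pool.Agent.H244R4.SH.Stmts

/-! Project H244-STEIN, task Seg (helper766). -/

set_option autoImplicit false

namespace H244SH

open Set

namespace SegAux

theorem sq_le_cosh (d : ℝ) : d ^ 2 ≤ 2 * (Real.cosh d - 1) := by
  have h1 : Real.cosh d = 1 + 2 * Real.sinh (d / 2) ^ 2 := by
    have h := Real.cosh_two_mul (d / 2)
    rw [mul_div_cancel₀ d (two_ne_zero)] at h
    rw [h, Real.cosh_sq]
    ring
  have h2 : (d / 2) ^ 2 ≤ Real.sinh (d / 2) ^ 2 := by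
    rw [← sq_abs (d / 2), ← sq_abs (Real.sinh (d / 2)), Real.abs_sinh]
    exact pow_le_pow_left₀ (abs_nonneg _) (Real.self_le_sinh_iff.2 (abs_nonneg _)) 2
  rw [h1]
  nlinarith

theorem key (x x' : ℝ) : (x - x') ^ 2 + (Real.cosh x - Real.cosh x') ^ 2 ≤
    (Real.sinh x - Real.sinh x') ^ 2 := by
  have h1 := sq_le_cosh (x - x')
  rw [Real.cosh_sub] at h1
  have h2 := Real.cosh_sq x
  have h3 := Real.cosh_sq x'
  nlinarith

theorem dist_Psi (a b : ℂ) : dist (Psi a) (Psi b) ≤ ‖a - b‖ := by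
  rw [EuclideanSpace.dist_eq, Fin.sum_univ_three, Complex.norm_eq_sqrt_sq_add_sq]
  apply Real.sqrt_le_sqrt
  simp only [Psi, Real.dist_eq, sq_abs, Complex.sub_re, Complex.sub_im]
  have h := key (Real.arsinh a.re) (Real.arsinh b.re)
  rw [Real.sinh_arsinh, Real.sinh_arsinh, Real.cosh_arsinh, Real.cosh_arsinh] at h
  simp
  nlinarith

theorem dist_Psi' (a b : ℂ) : dist (Psi' a) (Psi' b) ≤ ‖a - b‖ := by
  rw [EuclideanSpace.dist_eq, Fin.sum_univ_three, Complex.norm_eq_sqrt_sq_add_sq]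
  apply Real.sqrt_le_sqrt
  simp only [Psi', Real.dist_eq, sq_abs, Complex.sub_re, Complex.sub_im]
  have h := key (Real.arsinh a.re) (Real.arsinh b.re)
  rw [Real.sinh_arsinh, Real.sinh_arsinh, Real.cosh_arsinh, Real.cosh_arsinh] at h
  simp
  nlinarith

theorem TR_ineq {w : ℂ} (hw : w ∈ TR) :
    w.im ^ 2 + 9 / 5 * Real.sqrt (1 + w.re ^ 2) ≤ 181 / 100 := by
  have h1 : ‖w‖ + 9 / 10 ≤ Real.sqrt (1 + w.re ^ 2) := hw
  have h2 : Real.sqrt (1 + w.re ^ 2) ^ 2 = 1 + w.re ^ 2 := Real.sq_sqrt (by positivity)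
  have h3 : ‖w‖ ^ 2 = w.re ^ 2 + w.im ^ 2 := by
    rw [Complex.sq_norm, Complex.normSq_apply]; ring
  have h4 : ‖w‖ ^ 2 ≤ (Real.sqrt (1 + w.re ^ 2) - 9 / 10) ^ 2 :=
    pow_le_pow_left₀ (norm_nonneg _) (by linarith) 2
  nlinarith

theorem Psi_mem {w : ℂ} (hw : w ∈ TR) : Psi w ∈ S := by
  left; left
  refine ⟨?_, ?_⟩
  · have := TR_ineq hw
    simp only [Psi]
    simpa [Real.cosh_arsinh] using this
  · simp [Psi, Real.cosh_arsinh]

theorem Psi'_mem {w : ℂ} (hw : w ∈ TR) : Psi' w ∈ S := by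
  left; right
  refine ⟨?_, ?_⟩
  · have := TR_ineq hw
    simp only [Psi']
    simpa [Real.cosh_arsinh] using this
  · simp [Psi', Real.cosh_arsinh]

theorem gen (hTri : TaskTri) (F : ℂ → E3) (hF : ∀ a b, dist (F a) (F b) ≤ ‖a - b‖)
    (hm : ∀ w ∈ TR, F w ∈ S) (w w' : ℂ) (hseg : segment ℝ w w' ⊆ TR) :
    idist S (F w) (F w') ≤ ENNReal.ofReal ‖w - w'‖ := by
  set L := ‖w - w'‖ with hL
  have hL0 : 0 ≤ L := norm_nonneg _
  apply hTri.2.2.2.2 S (F w) (F w') (fun s => F (w + (s / L) • (w' - w))) L hL0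
  · intro s _ t _
    refine (hF _ _).trans ?_
    have e : w + (s / L) • (w' - w) - (w + (t / L) • (w' - w)) = ((s - t) / L) • (w' - w) := by
      rw [sub_div, sub_smul]; ring
    rw [e, norm_smul, Real.norm_eq_abs, abs_div, abs_of_nonneg hL0, norm_sub_rev, ← hL]
    rcases hL0.eq_or_lt with h | h
    · rw [← h]; simp
    · rw [div_mul_cancel₀ _ h.ne']
  · intro t ht
    apply hm
    apply hseg
    rw [segment_eq_image']
    refine ⟨t / L, ⟨div_nonneg ht.1 hL0, div_le_one_of_le₀ ht.2 hL0⟩, rfl⟩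
  · simp
  · rcases hL0.eq_or_lt with h | h
    · have : w = w' := by
        rw [← sub_eq_zero, ← norm_eq_zero, ← hL, ← h]
      simp [this]
    · simp [div_self h.ne']

end SegAux

theorem taskSeg : TaskSeg := by
  intro hTri w w' hseg
  exact ⟨SegAux.gen hTri Psi SegAux.dist_Psi (fun w hw => SegAux.Psi_mem hw) w w' hseg,
    SegAux.gen hTri Psi' SegAux.dist_Psi' (fun w hw => SegAux.Psi'_mem hw) w w' hseg⟩

end H244SH
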