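import Pool.Agent.H244R4.SH.Stmts

/-! Task Tri of the project H244-STEIN: basic properties of the intrinsic distance. -/

set_option autoImplicit false

namespace H244SH

open Set

namespace Tri

theorem idist_le {A : Set E3} {p q : E3} {γ : ℝ → E3} (h : IsCurve A p q γ) :
    idist A p q ≤ eVariationOn γ (Icc 0 1) :=
  iInf₂_le γ h

theorem reparam (A : Set E3) (p q : E3) (γ : ℝ → E3) (a b : ℝ) (hab : a ≤ b)
    (hc : ContinuousOn γ (Icc a b)) (hA : ∀ t ∈ Icc a b, γ t ∈ A) (ha : γ a = p) (hb : γ b = q) :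
    idist A p q ≤ eVariationOn γ (Icc a b) := by
  have hmaps : MapsTo (fun t : ℝ => a + t * (b - a)) (Icc 0 1) (Icc a b) := by
    intro t ht
    have h0 : 0 ≤ b - a := by linarith
    have h1 : 0 ≤ t * (b - a) := mul_nonneg ht.1 h0
    have h2 : t * (b - a) ≤ 1 * (b - a) := mul_le_mul_of_nonneg_right ht.2 h0
    exact ⟨by linarith, by linarith⟩
  have hmono : MonotoneOn (fun t : ℝ => a + t * (b - a)) (Icc 0 1) := by
    intro s _ t _ hst
    have h0 : 0 ≤ b - a := by linarith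
    have h2 : s * (b - a) ≤ t * (b - a) := mul_le_mul_of_nonneg_right hst h0
    show a + s * (b - a) ≤ a + t * (b - a)
    linarith
  have hcurve : IsCurve A p q (γ ∘ fun t : ℝ => a + t * (b - a)) := by
    refine ⟨hc.comp (by fun_prop) hmaps, fun t ht => hA _ (hmaps ht), ?_, ?_⟩
    · show γ (a + 0 * (b - a)) = p
      rw [zero_mul, add_zero, ha]
    · show γ (a + 1 * (b - a)) = q
      rw [one_mul, add_sub_cancel, hb]
  exact (idist_le hcurve).trans (eVariationOn.comp_le_of_monotoneOn γ _ hmono hmaps)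

theorem rev (A : Set E3) (p q : E3) : idist A p q ≤ idist A q p := by
  refine le_iInf₂ fun γ hγ => ?_
  have hmaps : MapsTo (fun t : ℝ => 1 - t) (Icc 0 1) (Icc 0 1) := by
    intro t ht
    exact ⟨by linarith [ht.2], by linarith [ht.1]⟩
  have hanti : AntitoneOn (fun t : ℝ => 1 - t) (Icc 0 1) := by
    intro s _ t _ hst
    show 1 - t ≤ 1 - s
    linarith
  have hcurve : IsCurve A p q (γ ∘ fun t : ℝ => 1 - t) := by
    refine ⟨hγ.1.comp (by fun_prop) hmaps, fun t ht => hγ.2.1 _ (hmaps ht), ?_, ?_⟩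
    · show γ (1 - 0) = p
      rw [sub_zero, hγ.2.2.2]
    · show γ (1 - 1) = q
      rw [sub_self, hγ.2.2.1]
  exact (idist_le hcurve).trans (eVariationOn.comp_le_of_antitoneOn γ _ hanti hmaps)

theorem neg (A : Set E3) (hA : ∀ x ∈ A, -x ∈ A) (p q : E3) :
    idist A (-p) (-q) ≤ idist A p q := by
  refine le_iInf₂ fun γ hγ => ?_
  have hcurve : IsCurve A (-p) (-q) (fun t => -γ t) := by
    refine ⟨hγ.1.neg, fun t ht => hA _ (hγ.2.1 t ht), ?_, ?_⟩
    · show -γ 0 = -p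
      rw [hγ.2.2.1]
    · show -γ 1 = -q
      rw [hγ.2.2.2]
  refine (idist_le hcurve).trans (le_of_eq ?_)
  unfold eVariationOn
  simp only [edist_neg_neg]

theorem concat (A : Set E3) (p q r : E3) : idist A p r ≤ idist A p q + idist A q r := by
  have key : ∀ γ₁ γ₂ : ℝ → E3, IsCurve A p q γ₁ → IsCurve A q r γ₂ →
      idist A p r ≤ eVariationOn γ₁ (Icc 0 1) + eVariationOn γ₂ (Icc 0 1) := by
    intro γ₁ γ₂ h₁ h₂
    set γ : ℝ → E3 := fun t => if t ≤ 1 then γ₁ t else γ₂ (t - 1) with hγ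
    have e1 : EqOn γ γ₁ (Icc 0 1) := fun t ht => if_pos ht.2
    have e2 : EqOn γ (γ₂ ∘ fun t => t - 1) (Icc 1 2) := by
      intro t ht
      show (if t ≤ 1 then γ₁ t else γ₂ (t - 1)) = γ₂ (t - 1)
      by_cases h : t ≤ 1
      · have ht1 : t = 1 := le_antisymm h ht.1
        rw [if_pos h, ht1, sub_self, h₁.2.2.2, h₂.2.2.1]
      · rw [if_neg h]
    have hmaps : MapsTo (fun t : ℝ => t - 1) (Icc 1 2) (Icc 0 1) := by
      intro t ht
      exact ⟨by linarith [ht.1], by linarith [ht.2]⟩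
    have hmono : MonotoneOn (fun t : ℝ => t - 1) (Icc 1 2) := by
      intro s _ t _ hst
      show s - 1 ≤ t - 1
      linarith
    have c1 : ContinuousOn γ (Icc 0 1) := h₁.1.congr e1
    have c2 : ContinuousOn γ (Icc 1 2) := (h₂.1.comp (by fun_prop) hmaps).congr e2
    have hu : Icc (0 : ℝ) 2 = Icc 0 1 ∪ Icc 1 2 := (Icc_union_Icc_eq_Icc (by norm_num) (by norm_num)).symm
    have hc : ContinuousOn γ (Icc 0 2) := by
      rw [hu]
      exact c1.union_of_isClosed c2 isClosed_Icc isClosed_Icc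
    have hA : ∀ t ∈ Icc (0 : ℝ) 2, γ t ∈ A := by
      intro t ht
      by_cases h : t ≤ 1
      · rw [e1 ⟨ht.1, h⟩]
        exact h₁.2.1 t ⟨ht.1, h⟩
      · push Not at h
        rw [e2 ⟨h.le, ht.2⟩]
        exact h₂.2.1 _ (hmaps ⟨h.le, ht.2⟩)
    have g0 : γ 0 = p := by
      rw [e1 ⟨le_rfl, zero_le_one⟩, h₁.2.2.1]
    have g2 : γ 2 = r := by
      rw [e2 ⟨by norm_num, le_rfl⟩]
      show γ₂ (2 - 1) = r
      rw [show (2 : ℝ) - 1 = 1 by norm_num, h₂.2.2.2]
    have h := reparam A p r γ 0 2 (by norm_num) hc hA g0 g2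
    refine h.trans ?_
    have hadd := eVariationOn.Icc_add_Icc γ (s := univ) (a := 0) (b := 1) (c := 2)
      (by norm_num) (by norm_num) (mem_univ _)
    simp only [univ_inter] at hadd
    rw [← hadd, eVariationOn.eq_of_eqOn e1, eVariationOn.eq_of_eqOn e2]
    gcongr
    exact eVariationOn.comp_le_of_monotoneOn γ₂ _ hmono hmaps
  unfold idist
  simp only [ENNReal.iInf_add, ENNReal.add_iInf]
  exact le_iInf₂ fun γ₂ h₂ => le_iInf₂ fun γ₁ h₁ => key γ₁ γ₂ h₁ h₂

theorem lip (A : Set E3) (p q : E3) (γ : ℝ → E3) (L : ℝ) (hL : 0 ≤ L)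
    (h : ∀ s ∈ Icc (0 : ℝ) L, ∀ t ∈ Icc (0 : ℝ) L, dist (γ s) (γ t) ≤ |s - t|)
    (hA : ∀ t ∈ Icc (0 : ℝ) L, γ t ∈ A) (h0 : γ 0 = p) (h1 : γ L = q) :
    idist A p q ≤ ENNReal.ofReal L := by
  have hlip : LipschitzOnWith 1 γ (Icc 0 L) := by
    refine LipschitzOnWith.of_dist_le_mul fun s hs t ht => ?_
    rw [NNReal.coe_one, one_mul, Real.dist_eq]
    exact h s hs t ht
  refine (reparam A p q γ 0 L hL hlip.continuousOn hA h0 h1).trans ?_
  have e1 := hlip.comp_eVariationOn_le (g := fun t : ℝ => t) (s := Icc 0 L) (fun t ht => ht)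
  have e2 : eVariationOn (fun t : ℝ => t) (Icc 0 L) ≤ ENNReal.ofReal (L - 0) := by
    have hm : MonotoneOn (fun t : ℝ => t) (Icc 0 L) := fun s _ t _ hst => hst
    have := hm.eVariationOn_le (a := 0) (b := L) ⟨le_rfl, hL⟩ ⟨hL, le_rfl⟩
    rw [inter_self] at this
    exact this
  rw [sub_zero] at e2
  refine e1.trans ?_
  rw [ENNReal.coe_one, one_mul]
  exact e2

end Tri

theorem taskTri : TaskTri :=
  ⟨Tri.concat, Tri.rev, fun A hA p q => Tri.neg A hA p q, Tri.reparam, Tri.lip⟩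

end H244SH
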