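import Pool.Agent.H244R4.SH.Stmts
import Pool.Agent.H244R4.SH.PL
import Pool.Agent.H244R4.SH.KE
import Pool.Agent.H244R4.SH.TaskQ
import Pool.Agent.H663R4.SH.TG
import Pool.Agent.H244R4.SH.Front
import Pool.Agent.H244R4.SH.Mid
import Pool.Agent.H244R4.SH.TaskTri
import Pool.Agent.H244R4.SH.Lower
import Pool.Agent.H244R4.SH.TaskSeg
import Pool.Agent.H244R4.SH.Vert
import Pool.Agent.H244R4.SH.TaskRim
import Pool.Agent.H244R4.SH.TaskUp
import Pool.Agent.H244R4.SH.TaskConv_helper133
import Pool.Agent.H244R4.SH.TaskRev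

/-! Assembly of the Steinhaus surface theorem. -/

set_option autoImplicit false

namespace H244SH

open Set

theorem final : ∃ S : Set E3, IsConvexSurface S ∧ IsSteinhaus S ∧
    (∀ p ∈ S, antipodes S p = {-p}) ∧ ¬ IsRevolution S := by
  have hlow := taskLower taskTri (taskMid (taskFront taskPL
    (Pool.Agent.H663R4.SH.taskG taskKE taskQ)))
  have hup := taskUp taskTri (taskSeg taskTri) (taskVert taskTri) taskRim
  have hant : ∀ p ∈ S, antipodes S p = {-p} := by
    intro p hp
    ext q
    constructor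
    · rintro ⟨hq, hmax⟩
      by_contra hne
      have h1 := hup p hp q hq hne
      have h2 := hmax (-p) (neg_mem_S p hp)
      exact absurd (lt_of_le_of_lt ((hlow p hp).trans h2) h1) (lt_irrefl _)
    · intro hq
      rw [mem_singleton_iff] at hq
      subst hq
      refine ⟨neg_mem_S p hp, fun s hs => ?_⟩
      by_cases hsp : s = -p
      · rw [hsp]
      · exact (hup p hp s hs hsp).le.trans (hlow p hp)
  exact ⟨S, ⟨K, ConvH133.taskConv⟩, ⟨fun p => -p, hant, fun p _ => neg_neg p⟩, hant, taskRev⟩

end H244SH
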