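import Pool.Agent.H244R4.SH.Stmts

/-! A surface invariant under all rotations about a line is invariant in the orbit sense. -/

set_option autoImplicit false

namespace H244SH

open Set

/-- invariance under every rotation about the line through `o` with direction `v` -/
def IsRotInvariant (S : Set E3) : Prop :=
  ∃ o v : E3, v ≠ 0 ∧ ∀ R : E3 ≃ₗᵢ[ℝ] E3, LinearMap.det R.toLinearMap = 1 → R v = v →
    (fun x => o + R (x - o)) '' S = S

lemma exists_perp (v b : E3) : ∃ e : E3, e ≠ 0 ∧ inner ℝ e v = 0 ∧ inner ℝ e b = 0 := by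
  have h1 := Submodule.finrank_add_finrank_orthogonal (Submodule.span ℝ ({v, b} : Set E3))
  have h2 : Module.finrank ℝ E3 = 3 := by simp
  have h3 : Module.finrank ℝ (Submodule.span ℝ ({v, b} : Set E3)) ≤ 2 := by
    have := finrank_span_le_card (R := ℝ) ({v, b} : Set E3)
    refine this.trans ?_
    rw [Set.toFinset_insert, Set.toFinset_singleton]
    exact Finset.card_le_two
  have h4 : 0 < Module.finrank ℝ (Submodule.span ℝ ({v, b} : Set E3))ᗮ := by omega
  have h5 : (Submodule.span ℝ ({v, b} : Set E3))ᗮ ≠ ⊥ := by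
    intro h
    rw [h] at h4
    simp at h4
  obtain ⟨e, he, hne⟩ := Submodule.exists_mem_ne_zero_of_ne_bot h5
  refine ⟨e, hne, ?_, ?_⟩
  · exact Submodule.inner_left_of_mem_orthogonal (Submodule.subset_span (by simp)) he
  · exact Submodule.inner_left_of_mem_orthogonal (Submodule.subset_span (by simp)) he

lemma det_refl (e : E3) (he : e ≠ 0) :
    LinearMap.det ((ℝ ∙ e)ᗮ : Submodule ℝ E3).reflection.toLinearMap = -1 := by
  rw [Submodule.det_reflection, Submodule.orthogonal_orthogonal, finrank_span_singleton he]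
  norm_num

lemma rev_of_rot (S : Set E3) (h : IsRotInvariant S) : IsRevolution S := by
  obtain ⟨o, v, hv, hR⟩ := h
  refine ⟨o, v, hv, ?_⟩
  intro x hx y h1 h2
  by_cases hab : x - o = y - o
  · have : x = y := sub_left_injective hab
    rwa [← this]
  obtain ⟨e, he, hev, heb⟩ := exists_perp v (y - o)
  have hne : x - o - (y - o) ≠ 0 := sub_ne_zero.2 hab
  have hR1a : ((ℝ ∙ (x - o - (y - o)))ᗮ : Submodule ℝ E3).reflection (x - o) = y - o :=
    Submodule.reflection_sub h2.symm
  have hR1v : ((ℝ ∙ (x - o - (y - o)))ᗮ : Submodule ℝ E3).reflection v = v := by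
    apply Submodule.reflection_mem_subspace_eq_self
    rw [Submodule.mem_orthogonal_singleton_iff_inner_right, inner_sub_left, h1, sub_self]
  have hR2v : ((ℝ ∙ e)ᗮ : Submodule ℝ E3).reflection v = v := by
    apply Submodule.reflection_mem_subspace_eq_self
    rw [Submodule.mem_orthogonal_singleton_iff_inner_right]
    exact hev
  have hR2b : ((ℝ ∙ e)ᗮ : Submodule ℝ E3).reflection (y - o) = y - o := by
    apply Submodule.reflection_mem_subspace_eq_self
    rw [Submodule.mem_orthogonal_singleton_iff_inner_right]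
    exact heb
  have key := hR (((ℝ ∙ (x - o - (y - o)))ᗮ : Submodule ℝ E3).reflection.trans
    ((ℝ ∙ e)ᗮ : Submodule ℝ E3).reflection) ?_ ?_
  · rw [← key]
    refine ⟨x, hx, ?_⟩
    show o + ((ℝ ∙ e)ᗮ : Submodule ℝ E3).reflection
      (((ℝ ∙ (x - o - (y - o)))ᗮ : Submodule ℝ E3).reflection (x - o)) = y
    rw [hR1a, hR2b]
    abel
  · have : (((ℝ ∙ (x - o - (y - o)))ᗮ : Submodule ℝ E3).reflection.trans
        ((ℝ ∙ e)ᗮ : Submodule ℝ E3).reflection).toLinearMap =
        ((ℝ ∙ e)ᗮ : Submodule ℝ E3).reflection.toLinearMap ∘ₗ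
        ((ℝ ∙ (x - o - (y - o)))ᗮ : Submodule ℝ E3).reflection.toLinearMap := rfl
    rw [this, LinearMap.det_comp, det_refl e he, det_refl _ hne]
    norm_num
  · show ((ℝ ∙ e)ᗮ : Submodule ℝ E3).reflection
      (((ℝ ∙ (x - o - (y - o)))ᗮ : Submodule ℝ E3).reflection v) = v
    rw [hR1v, hR2v]

end H244SH
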